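import Pool.Graph.R_seed8.Results.MP_9fb0d9_nt.InfiniteIndex

set_option autoImplicit false

/-!
# Postcritically finite polynomials of infinite index in every degree, over every number field

For `d ≥ 2` let `f = (2 - x)^d + 1`, conjugate to `w ↦ 1 - w^d` by `x = 2 - w`, over a number
field `K`.  The critical point `2` has orbit `2, 1, 2, 1, ...`, while the orbit of `0` is infinite.
For `n = 2 j + 1` the splitting field `L_n` of `f^n(x) - t` over `K(t)` contains an element `u`
with `u^N = t - 1`, `N = d^(j+1)` (`root_odd`), and its Galois group contains an automorphism `τ`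
with `τ(u) = η u`, `η` a primitive `N`-th root of unity fixed by `τ` (`exists_tau`).  At `t = 0`
the element `u` reduces to a root of unity, so `τ^a` is not in the decomposition group for
`0 < 2 a < N` (`index_decomp`).  Hence `d^(j+1) [K_n : K] ≤ 2 [L_n : K(t)]`.
-/

namespace Pool.Agent.Results.MP_9fb0d9_nt.EveryDegree

open Polynomial
open scoped Pointwise
open Pool.Agent.Results.MP_9fb0d9_nt.InfiniteIndex (it it_zero it_succ it_map transc transcE
  mem_const surj_res hcomm normal_res card_decomp)

section tree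

variable {R : Type*} [CommRing R]

/-- `f = (2 - X) ^ d + 1`, conjugate of `1 - X ^ d` by `x ↦ 2 - x`. -/
noncomputable def bas (R : Type*) [CommRing R] (d : ℕ) : R[X] := (2 - X) ^ d + 1

theorem bas_map {S : Type*} [CommRing S] (φ : R →+* S) (d : ℕ) :
    (bas R d).map φ = bas S d := by
  simp [bas]

theorem two_sub_natDegree [Nontrivial R] : ((2 : R[X]) - X).natDegree = 1 := by
  rw [natDegree_sub]
  exact natDegree_X_sub_C (2 : R)

theorem bas_natDegree [Nontrivial R] [NoZeroDivisors R] (d : ℕ) : (bas R d).natDegree = d := by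
  have h : bas R d = (2 - X) ^ d + C 1 := by simp [bas]
  rw [h, natDegree_add_C, natDegree_pow, two_sub_natDegree, mul_one]

theorem bas_lead [Nontrivial R] [NoZeroDivisors R] {d : ℕ} (hd : 0 < d) :
    (bas R d).leadingCoeff = (-1) ^ d := by
  have h1 : ((2 : R[X]) - X).leadingCoeff = -1 := by
    rw [leadingCoeff, two_sub_natDegree, coeff_sub, coeff_X_one]
    have : (2 : R[X]).coeff 1 = 0 := by
      have : (2 : R[X]) = C 2 := rfl
      rw [this, coeff_C_succ]
    rw [this, zero_sub]
  have h2 : ((2 : R[X]) - X) ^ d = (2 - X) ^ d := rfl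
  rw [leadingCoeff, bas_natDegree]
  unfold bas
  rw [coeff_add]
  have h3 : (((2 : R[X]) - X) ^ d).coeff d = (-1) ^ d := by
    have := leadingCoeff_pow ((2 : R[X]) - X) d
    rw [leadingCoeff, natDegree_pow, two_sub_natDegree, mul_one, h1] at this
    exact this
  rw [h3, coeff_one, if_neg hd.ne', add_zero]

theorem it_natDegree [Nontrivial R] [NoZeroDivisors R] (d n : ℕ) :
    (it (bas R d) n).natDegree = d ^ n := by
  induction n with
  | zero => simp [it_zero]
  | succ n ih => rw [it_succ, natDegree_comp, ih, bas_natDegree, pow_succ, mul_comm]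

theorem it_lead [Nontrivial R] [NoZeroDivisors R] {d : ℕ} (hd : 0 < d) (n : ℕ) :
    IsUnit (it (bas R d) n).leadingCoeff := by
  induction n with
  | zero => simp [it_zero]
  | succ n ih =>
    rw [it_succ, leadingCoeff_comp (by rw [it_natDegree]; exact (pow_pos hd n).ne'), bas_lead hd]
    exact ((isUnit_one.neg).pow _).mul (ih.pow _)

variable {L : Type*} [Field L] {d : ℕ}

theorem it_sub_natDegree (n : ℕ) (y : L) : (it (bas L d) n - C y).natDegree = d ^ n := by
  rw [natDegree_sub_C, it_natDegree]

theorem it_sub_ne_zero (hd : 0 < d) (n : ℕ) (y : L) : it (bas L d) n - C y ≠ 0 := by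
  intro h
  have h1 := it_sub_natDegree (d := d) n y
  rw [h, natDegree_zero] at h1
  exact (pow_pos hd n).ne h1

theorem child (hd : 0 < d) {n : ℕ} {y w : L} (h : (it (bas L d) (n + 1) - C y).Splits)
    (hw : (bas L d).eval w = y) : (it (bas L d) n - C w).Splits := by
  refine h.of_dvd (it_sub_ne_zero hd _ _) ?_
  have h1 : (X - C w) ∣ bas L d - C y := by
    rw [← hw]; exact X_sub_C_dvd_sub_C_eval
  have h2 := map_dvd (compRingHom (it (bas L d) n)) h1
  simpa [it_succ] using h2

theorem level_splits (hd : 0 < d) {n : ℕ} {y : L} (h : (it (bas L d) (n + 1) - C y).Splits) :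
    (bas L d - C y).Splits := by
  refine Splits.of_splits_map_of_injective (algebraMap L (AlgebraicClosure L)).injective
    (IsAlgClosed.splits _) ?_
  intro w hw
  have hw' : (bas (AlgebraicClosure L) d).eval w = algebraMap L (AlgebraicClosure L) y := by
    have h1 := (mem_roots'.mp hw).2
    rw [IsRoot.def, Polynomial.map_sub, bas_map, map_C, eval_sub, eval_C, sub_eq_zero] at h1
    exact h1
  obtain ⟨r, hr⟩ := IsAlgClosed.exists_root (it (bas (AlgebraicClosure L) d) n - C w) (by
    rw [degree_eq_natDegree (it_sub_ne_zero hd _ _), it_sub_natDegree]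
    exact_mod_cast (pow_pos hd n).ne')
  have hr' : (it (bas (AlgebraicClosure L) d) n).eval r = w := by
    rw [IsRoot.def, eval_sub, eval_C, sub_eq_zero] at hr
    exact hr
  have hmem : r ∈ ((it (bas L d) (n + 1) - C y).map (algebraMap L (AlgebraicClosure L))).roots := by
    rw [mem_roots ((Polynomial.map_ne_zero_iff
      (algebraMap L (AlgebraicClosure L)).injective).mpr (it_sub_ne_zero hd _ _)), IsRoot.def,
      Polynomial.map_sub, it_map, bas_map, map_C, eval_sub, eval_C, it_succ, eval_comp, hr', hw',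
      sub_self]
  rw [h.roots_map, Multiset.mem_map] at hmem
  obtain ⟨r0, -, hr0⟩ := hmem
  refine ⟨(it (bas L d) n).eval r0, ?_⟩
  rw [← hr', ← hr0, ← bas_map (algebraMap L (AlgebraicClosure L)) d, ← it_map, eval_map,
    eval₂_at_apply]

theorem root_even (hd : 0 < d) (j : ℕ) : ∀ y : L, (it (bas L d) (2 * j) - C y).Splits →
    ∃ v : L, v ^ d ^ j = 2 - y := by
  induction j with
  | zero => intro y _; exact ⟨2 - y, by simp⟩
  | succ j ih =>
    intro y h
    rw [show 2 * (j + 1) = (2 * j + 1) + 1 by ring] at h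
    have hs := level_splits hd h
    have hex : ∀ z : L, ∃ v : L, z ∈ (bas L d - C y).roots → v ^ d ^ (j + 1) = z - 1 := by
      intro z
      by_cases hz : z ∈ (bas L d - C y).roots
      · have hz1 : (bas L d).eval z = y := by
          have h1 := (mem_roots'.mp hz).2
          rw [IsRoot.def, eval_sub, eval_C, sub_eq_zero] at h1
          exact h1
        have h1 := child hd h hz1
        have hs1 := level_splits hd h1
        obtain ⟨x, hx⟩ := hs1.exists_eval_eq_zero (by
          have := it_sub_ne_zero (d := d) hd 1 z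
          have h2 : it (bas L d) 1 = bas L d := by rw [it_succ, it_zero, comp_X]
          rw [h2] at this
          rw [degree_eq_natDegree this, natDegree_sub_C, bas_natDegree]
          exact_mod_cast hd.ne')
        have hx1 : (bas L d).eval x = z := by
          rw [eval_sub, eval_C, sub_eq_zero] at hx
          exact hx
        obtain ⟨v, hv⟩ := ih x (child hd h1 hx1)
        refine ⟨v, fun _ => ?_⟩
        rw [pow_succ, pow_mul, hv, ← hx1]
        simp [bas]
      · exact ⟨0, fun h' => absurd h' hz⟩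
    choose v hv using hex
    refine ⟨((bas L d - C y).roots.map v).prod, ?_⟩
    rw [← Multiset.prod_map_pow, Multiset.map_congr rfl (fun z hz => hv z hz)]
    have hcard : Multiset.card (bas L d - C y).roots = d := by
      rw [← hs.natDegree_eq_card_roots, natDegree_sub_C, bas_natDegree]
    have hev : (bas L d - C y).eval 1 = 2 - y := by
      simp only [bas, eval_sub, eval_add, eval_pow, eval_X, eval_one, eval_C, eval_ofNat]
      norm_num
    have hfac := hs.eq_prod_roots
    have hlc : (bas L d - C y).leadingCoeff = (-1) ^ d := by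
      rw [leadingCoeff, natDegree_sub_C, bas_natDegree, coeff_sub, coeff_C, if_neg hd.ne', sub_zero]
      have := bas_lead (R := L) hd
      rwa [leadingCoeff, bas_natDegree] at this
    have h3 : (bas L d - C y).eval 1 = (-1) ^ d * ((bas L d - C y).roots.map (fun z => 1 - z)).prod := by
      conv_lhs => rw [hfac]
      rw [eval_mul, eval_C, hlc, eval_multiset_prod, Multiset.map_map]
      congr 2
      refine Multiset.map_congr rfl (fun z _ => ?_)
      simp
    have h4 : ((bas L d - C y).roots.map (fun z => z - 1)).prod =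
        (-1) ^ d * ((bas L d - C y).roots.map (fun z => 1 - z)).prod := by
      have e : (fun z : L => z - 1) = fun z => (-1 : L) * (1 - z) := by funext z; ring
      rw [e, Multiset.prod_map_mul, Multiset.map_const', Multiset.prod_replicate, hcard]
    rw [h4, ← h3, hev]

theorem root_odd (hd : 0 < d) (j : ℕ) (t : L) (h : (it (bas L d) (2 * j + 1) - C t).Splits) :
    ∃ u : L, u ^ d ^ (j + 1) = t - 1 := by
  have hs := level_splits hd h
  obtain ⟨x, hx⟩ := hs.exists_eval_eq_zero (by
    have := it_sub_ne_zero (d := d) hd 1 t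
    have h2 : it (bas L d) 1 = bas L d := by rw [it_succ, it_zero, comp_X]
    rw [h2] at this
    rw [degree_eq_natDegree this, natDegree_sub_C, bas_natDegree]
    exact_mod_cast hd.ne')
  have hx1 : (bas L d).eval x = t := by
    rw [eval_sub, eval_C, sub_eq_zero] at hx
    exact hx
  obtain ⟨v, hv⟩ := root_even hd j x (child hd h hx1)
  refine ⟨v, ?_⟩
  rw [pow_succ, pow_mul, hv, ← hx1]
  simp [bas]

end tree

section geo

variable {k L : Type*} [Field k] [Field L] [Algebra k L] [Algebra k[X] L]
  [Algebra (RatFunc k) L] [IsScalarTower k[X] (RatFunc k) L] [IsScalarTower k k[X] L]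

theorem root_notMem {p : ℕ} (hp : 2 ≤ p) {s : L} (hs : s ^ p = algebraMap k[X] L X - 1) :
    s ∉ IntermediateField.adjoin (RatFunc k) ((algebraicClosure k L : Set L)) := by
  intro h
  obtain ⟨P, Q, hQ, h1⟩ := mem_const h
  have h2 : aeval (algebraMap k[X] L X) (P ^ p) = aeval (algebraMap k[X] L X) ((X - C 1) * Q ^ p) := by
    rw [map_pow, ← h1, mul_pow, hs]
    simp
  have h3 : P ^ p = (X - C 1) * Q ^ p := (transcendental_iff_injective.mp transcE) h2
  have h4 := congrArg natDegree h3
  rw [natDegree_pow, natDegree_mul (X_sub_C_ne_zero _) (pow_ne_zero _ hQ), natDegree_X_sub_C,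
    natDegree_pow] at h4
  have h5 : p ∣ 1 := by
    have h6 : p ∣ 1 + p * Q.natDegree := ⟨_, h4.symm⟩
    exact (Nat.dvd_add_iff_left (Dvd.intro _ rfl)).mpr h6
  have := Nat.le_of_dvd one_pos h5
  omega

/-- A Galois automorphism fixing all constants and multiplying `u` by a primitive `N`-th root of
unity. -/
theorem exists_tau [FiniteDimensional (RatFunc k) L] [IsGalois (RatFunc k) L] {N : ℕ} (hN : 0 < N)
    {u : L} (hu0 : u ≠ 0) (hu : u ^ N = algebraMap k[X] L X - 1) :
    ∃ (τ : L ≃ₐ[RatFunc k] L) (η : L), (∀ x : L, IsAlgebraic k x → τ x = x) ∧ τ u = η * u ∧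
      IsPrimitiveRoot η N := by
  classical
  set M := IntermediateField.adjoin (RatFunc k) ((algebraicClosure k L : Set L)) with hM
  have hfix : ∀ τ ∈ M.fixingSubgroup, ∀ x : L, IsAlgebraic k x → τ x = x := by
    intro τ hτ x hx
    rw [IntermediateField.mem_fixingSubgroup_iff] at hτ
    apply hτ
    apply IntermediateField.subset_adjoin
    exact mem_algebraicClosure_iff.mpr hx
  have hpow : ∀ τ : L ≃ₐ[RatFunc k] L, (τ u / u) ^ N = 1 := by
    intro τ
    rw [div_pow, ← map_pow, hu, map_sub, map_one, IsScalarTower.algebraMap_apply k[X] (RatFunc k) L,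
      AlgEquiv.commutes, ← IsScalarTower.algebraMap_apply k[X] (RatFunc k) L, ← hu]
    exact div_self (pow_ne_zero _ hu0)
  have halg : ∀ τ : L ≃ₐ[RatFunc k] L, IsAlgebraic k (τ u / u) := by
    intro τ
    refine ⟨X ^ N - C 1, X_pow_sub_C_ne_zero hN _, by simp [hpow τ]⟩
  have hne : ∀ τ : L ≃ₐ[RatFunc k] L, τ u / u ≠ 0 := by
    intro τ
    exact div_ne_zero ((_root_.map_ne_zero τ).mpr hu0) hu0
  let χ : M.fixingSubgroup →* Lˣ :=
    { toFun := fun τ => Units.mk0 (τ.1 u / u) (hne τ.1)
      map_one' := by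
        ext
        simp [hu0]
      map_mul' := by
        intro σ τ
        ext
        simp only [Units.val_mk0, Units.val_mul, Subgroup.coe_mul, AlgEquiv.mul_apply]
        have h1 : σ.1 (τ.1 u / u) = τ.1 u / u := hfix σ.1 σ.2 _ (halg τ.1)
        rw [map_div₀] at h1
        have h2 : σ.1 u ≠ 0 := (_root_.map_ne_zero σ.1).mpr hu0
        have h3 : σ.1 (τ.1 u) = τ.1 u / u * σ.1 u := by
          rw [div_eq_iff h2] at h1
          exact h1
        rw [h3]
        ring }
  have hfin : Finite χ.range := by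
    have : Finite M.fixingSubgroup := inferInstance
    exact Finite.of_surjective χ.rangeRestrict χ.rangeRestrict_surjective
  obtain ⟨⟨g, hg⟩, hgen⟩ := (isCyclic_subgroup_units χ.range).exists_generator
  obtain ⟨τ, hτ⟩ := hg
  have hgu : ((g : Lˣ) : L) = τ.1 u / u := by rw [← hτ]; rfl
  have hord : orderOf (g : Lˣ) = N := by
    refine orderOf_eq_of_pow_and_pow_div_prime hN ?_ ?_
    · ext
      rw [Units.val_pow_eq_pow_val, hgu, hpow, Units.val_one]
    · intro p hp hpN hcon
      apply root_notMem (k := k) (L := L) (p := p) hp.two_le (s := u ^ (N / p))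
        (by rw [← pow_mul, Nat.div_mul_cancel hpN, hu])
      rw [← hM, ← IsGalois.fixedField_fixingSubgroup M, IntermediateField.mem_fixedField_iff]
      intro σ hσ
      have hσ1 : χ ⟨σ, hσ⟩ ∈ χ.range := ⟨_, rfl⟩
      obtain ⟨m, hm⟩ := Subgroup.mem_zpowers_iff.mp (hgen ⟨χ ⟨σ, hσ⟩, hσ1⟩)
      have hm' : g ^ m = χ ⟨σ, hσ⟩ := congrArg Subtype.val hm
      have h1 : (χ ⟨σ, hσ⟩) ^ (N / p) = 1 := by
        rw [← hm', ← zpow_natCast, ← zpow_mul, mul_comm, zpow_mul, zpow_natCast, hcon, one_zpow]
      have h2 : (σ u / u) ^ (N / p) = 1 := by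
        have := congrArg (Units.val) h1
        rw [Units.val_pow_eq_pow_val, Units.val_one] at this
        exact this
      rw [div_pow, div_eq_one_iff_eq (pow_ne_zero _ hu0)] at h2
      rw [map_pow, h2]
  refine ⟨τ.1, τ.1 u / u, hfix τ.1 τ.2, by field_simp, ?_⟩
  rw [← hgu]
  have h5 : IsPrimitiveRoot (g : Lˣ) N := by rw [← hord]; exact IsPrimitiveRoot.orderOf _
  exact (IsPrimitiveRoot.coe_units_iff).mpr h5

end geo

section index

variable {k L : Type*} [Field k] [Field L] [Algebra k L] [Algebra k[X] L]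
  [Algebra (RatFunc k) L] [IsScalarTower k[X] (RatFunc k) L] [IsScalarTower k k[X] L]
  [FiniteDimensional (RatFunc k) L] [IsGalois (RatFunc k) L]

/-- The decomposition group has index at least `N / 2`. -/
theorem index_decomp [CharZero k] (P : Ideal k[X]) (hP : P = RingHom.ker (evalRingHom (0 : k)))
    (Q : Ideal (integralClosure k[X] L)) [Q.IsMaximal] [Q.LiesOver P]
    (N : ℕ) (hN : 0 < N) (u : L) (hu : u ^ N = algebraMap k[X] L X - 1) :
    (N + 1) / 2 * Nat.card (MulAction.stabilizer
      ((integralClosure k[X] L) ≃ₐ[k[X]] (integralClosure k[X] L)) Q) ≤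
      Nat.card ((integralClosure k[X] L) ≃ₐ[k[X]] (integralClosure k[X] L)) := by
  have hinj : Function.Injective (algebraMap (integralClosure k[X] L) L) :=
    IsIntegralClosure.algebraMap_injective (integralClosure k[X] L) k[X] L
  have hfin : Finite ((integralClosure k[X] L) ≃ₐ[k[X]] (integralClosure k[X] L)) :=
    Finite.of_equiv _ (galRestrict k[X] (RatFunc k) L (integralClosure k[X] L)).toEquiv
  have hL0 : CharZero L := charZero_of_injective_algebraMap (algebraMap k L).injective
  -- `u` and `η`
  have hu0 : u ≠ 0 := by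
    rintro rfl
    rw [zero_pow hN.ne'] at hu
    have h2 := transc (k := k) (L := L)
    apply h2
    refine ⟨X - C 1, X_sub_C_ne_zero _, ?_⟩
    rw [map_sub, aeval_X, aeval_C, map_one, ← hu]
  obtain ⟨τ, η, hτ1, hη, hprimL⟩ := exists_tau (k := k) hN hu0 hu
  have hη2 : η ^ N = 1 := hprimL.pow_eq_one
  have hηalg : IsAlgebraic k η := ⟨X ^ N - C 1, X_pow_sub_C_ne_zero hN _, by simp [hη2]⟩
  have hη3 : τ η = η := hτ1 η hηalg
  have hηint : IsIntegral k[X] η := ⟨X ^ N - C 1,
    monic_X_pow_sub_C _ hN.ne', by simp [hη2]⟩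
  have huint : IsIntegral k[X] u := by
    refine ⟨X ^ N - C (X - 1), monic_X_pow_sub_C _ hN.ne', ?_⟩
    simp [hu]
  obtain ⟨uB, huB⟩ : ∃ uB : integralClosure k[X] L, algebraMap _ L uB = u := ⟨⟨u, huint⟩, rfl⟩
  obtain ⟨ηB, hηB⟩ : ∃ ηB : integralClosure k[X] L, algebraMap _ L ηB = η := ⟨⟨η, hηint⟩, rfl⟩
  set g : (integralClosure k[X] L) ≃ₐ[k[X]] (integralClosure k[X] L) :=
    galRestrict k[X] (RatFunc k) L (integralClosure k[X] L) τ with hg
  have hgu : g uB = ηB * uB := by
    apply hinj
    rw [hg, algebraMap_galRestrict_apply, map_mul, huB, hηB, hη]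
  have hgη : g ηB = ηB := by
    apply hinj
    rw [hg, algebraMap_galRestrict_apply, hηB, hη3]
  have hgη' : ∀ d : ℕ, (g ^ d) ηB = ηB := by
    intro d
    induction d with
    | zero => simp
    | succ d ih => rw [pow_succ, AlgEquiv.mul_apply, hgη, ih]
  have hgu' : ∀ d : ℕ, (g ^ d) uB = ηB ^ d * uB := by
    intro d
    induction d with
    | zero => simp
    | succ d ih => rw [pow_succ, AlgEquiv.mul_apply, hgu, map_mul, ih, hgη']; ring
  -- residue field
  let _ : Field (integralClosure k[X] L ⧸ Q) := Ideal.Quotient.field Q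
  have huB1 : uB ^ N = algebraMap k[X] (integralClosure k[X] L) (X - 1) := by
    apply hinj
    rw [map_pow, huB, hu, ← IsScalarTower.algebraMap_apply, map_sub, map_one]
  have hub : (Ideal.Quotient.mk Q uB) ^ N = -1 := by
    rw [← map_pow, huB1]
    have h1 := congrArg (fun φ => φ (X - 1)) (hcomm (L := L) P hP Q)
    simp only [RingHom.comp_apply] at h1
    rw [← h1]
    have h0 : (evalRingHom (0 : k)) (X - 1) = -1 := by simp
    rw [h0, RingHom.map_neg, RingHom.map_one]
  have hub0 : Ideal.Quotient.mk Q uB ≠ 0 := by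
    intro h
    rw [h, zero_pow hN.ne'] at hub
    have : (1 : integralClosure k[X] L ⧸ Q) = 0 := by
      rw [← neg_eq_zero]; exact hub.symm
    exact one_ne_zero this
  -- the constants inject into the residue field
  have hcint : ∀ x : algebraicClosure k L, (x : L) ∈ integralClosure k[X] L := by
    intro x
    have h1 : IsAlgebraic k (x : L) := mem_algebraicClosure_iff.mp x.2
    exact (h1.isIntegral).tower_top
  let ψ : algebraicClosure k L →+* integralClosure k[X] L :=
    RingHom.codRestrict (algebraicClosure k L).val.toRingHom (integralClosure k[X] L) hcint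
  have hprim : IsPrimitiveRoot (Ideal.Quotient.mk Q ηB) N := by
    obtain ⟨ηE, hηE⟩ : ∃ ηE : algebraicClosure k L, (ηE : L) = η :=
      ⟨⟨η, mem_algebraicClosure_iff.mpr hηalg⟩, rfl⟩
    have h1 : IsPrimitiveRoot ηE N := by
      refine IsPrimitiveRoot.of_map_of_injective (f := (algebraicClosure k L).val) ?_
        (algebraicClosure k L).val.injective
      change IsPrimitiveRoot (ηE : L) N
      rw [hηE]
      exact hprimL
    have h2 := h1.map_of_injective (f := (Ideal.Quotient.mk Q).comp ψ)
      (RingHom.injective ((Ideal.Quotient.mk Q).comp ψ))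
    have h3 : ψ ηE = ηB := by
      apply hinj
      rw [hηB, ← hηE]
      rfl
    rw [RingHom.comp_apply, h3] at h2
    exact h2
  have hne : NeZero N := ⟨hN.ne'⟩
  obtain ⟨i, -, hi⟩ := hprim.eq_pow_of_pow_eq_one (ξ := (Ideal.Quotient.mk Q uB) ^ 2) (by
    rw [← pow_mul, mul_comm, pow_mul, hub]; ring)
  -- powers of `g` are not in the decomposition group
  have key : ∀ d : ℕ, 0 < d → 2 * d < N → g ^ d ∉ MulAction.stabilizer
      ((integralClosure k[X] L) ≃ₐ[k[X]] (integralClosure k[X] L)) Q := by
    intro d hd0 hd1 hmem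
    rw [MulAction.mem_stabilizer_iff] at hmem
    have h1 : uB ^ 2 - ηB ^ i ∈ Q := by
      rw [← Ideal.Quotient.eq, map_pow, map_pow, hi]
    have h2 : (g ^ d) • (uB ^ 2 - ηB ^ i) ∈ (g ^ d) • Q :=
      Ideal.smul_mem_pointwise_smul _ _ _ h1
    rw [hmem] at h2
    have h3 : (g ^ d) • (uB ^ 2 - ηB ^ i) = (ηB ^ d * uB) ^ 2 - ηB ^ i := by
      rw [AlgEquiv.smul_def, map_sub, map_pow, map_pow, hgu', hgη']
    rw [h3, ← Ideal.Quotient.eq, map_pow, map_mul, map_pow, map_pow, hi, mul_pow] at h2
    have h4 : ((Ideal.Quotient.mk Q) ηB ^ d) ^ 2 = 1 := by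
      have h5 : (Ideal.Quotient.mk Q) uB ^ 2 ≠ 0 := pow_ne_zero _ hub0
      apply mul_right_cancel₀ h5
      rw [h2, one_mul]
    rw [← pow_mul] at h4
    have h6 := hprim.dvd_of_pow_eq_one _ h4
    have h8 := Nat.le_of_dvd (by omega) h6
    omega
  -- injection
  have hmul : (N + 1) / 2 * Nat.card (MulAction.stabilizer
      ((integralClosure k[X] L) ≃ₐ[k[X]] (integralClosure k[X] L)) Q) =
      Nat.card (Fin ((N + 1) / 2) × MulAction.stabilizer
      ((integralClosure k[X] L) ≃ₐ[k[X]] (integralClosure k[X] L)) Q) := by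
    rw [Nat.card_prod, Nat.card_fin]
  rw [hmul]
  refine Nat.card_le_card_of_injective
    (fun x => g ^ (x.1 : ℕ) * (x.2 : (integralClosure k[X] L) ≃ₐ[k[X]] (integralClosure k[X] L))) ?_
  rintro ⟨a, x⟩ ⟨b, y⟩ hxy
  simp only at hxy
  have hab : ∀ (a b : Fin ((N + 1) / 2)) (x y : MulAction.stabilizer
      ((integralClosure k[X] L) ≃ₐ[k[X]] (integralClosure k[X] L)) Q),
      g ^ (a : ℕ) * (x : (integralClosure k[X] L) ≃ₐ[k[X]] (integralClosure k[X] L)) =
      g ^ (b : ℕ) * (y : (integralClosure k[X] L) ≃ₐ[k[X]] (integralClosure k[X] L)) →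
      ¬ (a < b) := by
    intro a b x y h hlt
    have hlt' : (a : ℕ) < b := hlt
    have hb : (b : ℕ) < (N + 1) / 2 := b.2
    apply key (b - a) (Nat.sub_pos_of_lt hlt) (by omega)
    have h1 : g ^ ((b : ℕ) - a) = (x : (integralClosure k[X] L) ≃ₐ[k[X]] (integralClosure k[X] L)) *
        (y : (integralClosure k[X] L) ≃ₐ[k[X]] (integralClosure k[X] L))⁻¹ := by
      have h2 : g ^ (b : ℕ) = g ^ (a : ℕ) * g ^ ((b : ℕ) - a) := by
        rw [← pow_add, Nat.add_sub_of_le (le_of_lt hlt)]
      rw [h2, mul_assoc] at h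
      rw [eq_mul_inv_iff_mul_eq]
      exact (mul_left_cancel h).symm
    rw [h1]
    exact mul_mem x.2 (inv_mem y.2)
  have hab' : a = b := le_antisymm (not_lt.mp (hab b a y x hxy.symm)) (not_lt.mp (hab a b x y hxy))
  subst hab'
  have := mul_left_cancel hxy
  rw [Subtype.ext this]

end index

section main

variable {k L : Type*} [Field k] [Field L] [Algebra k L] [Algebra k[X] L]
  [Algebra (RatFunc k) L] [IsScalarTower k[X] (RatFunc k) L] [IsScalarTower k k[X] L]
  [FiniteDimensional (RatFunc k) L] [IsGalois (RatFunc k) L]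

theorem isSplittingField_C_mul {k : Type*} [Field k] {Kn : Type*} [Field Kn] [Algebra k Kn]
    {p : k[X]} {a : k} (ha : a ≠ 0) (h : IsSplittingField k Kn p) :
    IsSplittingField k Kn (C a * p) := by
  refine ⟨?_, ?_⟩
  · rw [Polynomial.map_mul, map_C]
    exact (Splits.C _).mul h.splits
  · have : (C a * p).rootSet Kn = p.rootSet Kn := by
      ext x
      by_cases hp : p = 0
      · simp [hp]
      · rw [mem_rootSet_of_ne (mul_ne_zero (C_ne_zero.mpr ha) hp), mem_rootSet_of_ne hp]
        rw [map_mul, aeval_C, mul_eq_zero]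
        constructor
        · rintro (h1 | h1)
          · exact absurd h1 ((_root_.map_ne_zero _).mpr ha)
          · exact h1
        · exact Or.inr
    rw [this]
    exact h.adjoin_rootSet

theorem main_ineq [CharZero k] {d : ℕ} (hd : 0 < d) (j : ℕ)
    (hsplit : (it (bas L d) (2 * j + 1) - C (algebraMap k[X] L X)).Splits)
    (Kn : Type*) [Field Kn] [Algebra k Kn]
    (hKn : IsSplittingField k Kn (it (bas k d) (2 * j + 1))) :
    d ^ (j + 1) * Module.finrank k Kn ≤ 2 * Module.finrank (RatFunc k) L := by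
  obtain ⟨u, hu⟩ := root_odd hd j _ hsplit
  have hN : 0 < d ^ (j + 1) := pow_pos hd _
  have hPmax : (RingHom.ker (evalRingHom (0 : k))).IsMaximal :=
    RingHom.ker_isMaximal_of_surjective _ (fun c => ⟨C c, by simp⟩)
  have hinjA : Function.Injective (algebraMap k[X] (integralClosure k[X] L)) := by
    have h0 : Function.Injective (algebraMap k[X] L) := by
      rw [IsScalarTower.algebraMap_eq k[X] (RatFunc k) L]
      exact (algebraMap (RatFunc k) L).injective.comp (RatFunc.algebraMap_injective k)
    intro a b h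
    apply h0
    rw [IsScalarTower.algebraMap_apply k[X] (integralClosure k[X] L) L, h,
      ← IsScalarTower.algebraMap_apply]
  have hfs : FaithfulSMul k[X] (integralClosure k[X] L) :=
    (faithfulSMul_iff_algebraMap_injective _ _).mpr hinjA
  obtain ⟨Q, hQmax, hQover⟩ := Ideal.exists_maximal_ideal_liesOver_of_isIntegral
    (S := integralClosure k[X] L) (RingHom.ker (evalRingHom (0 : k)))
  have h1 := index_decomp _ rfl Q (d ^ (j + 1)) hN u hu
  -- the leading coefficient of the iterate over `ℤ`
  obtain ⟨e, he, he2⟩ : ∃ e : ℤ, (it (bas ℤ d) (2 * j + 1)).leadingCoeff = e ∧ e * e = 1 := by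
    refine ⟨_, rfl, ?_⟩
    rcases Int.isUnit_iff.mp (it_lead (R := ℤ) hd (2 * j + 1)) with h | h <;> rw [h] <;> rfl
  have hlead : ∀ (B : Type _) [CommRing B] [IsDomain B] [CharZero B],
      (it (bas B d) (2 * j + 1)).leadingCoeff = (e : B) := by
    intro B _ _ _
    have h3 : it (bas B d) (2 * j + 1) = (it (bas ℤ d) (2 * j + 1)).map (Int.castRingHom B) := by
      rw [it_map, bas_map]
    rw [h3, leadingCoeff_map_of_injective (RingHom.injective_int _), he]
    rfl
  have hL0 : CharZero L := charZero_of_injective_algebraMap (algebraMap k L).injective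
  have hB0 : CharZero (integralClosure k[X] L) := by
    have : Function.Injective (algebraMap (integralClosure k[X] L) L) :=
      IsIntegralClosure.algebraMap_injective (integralClosure k[X] L) k[X] L
    refine ⟨fun a b h => ?_⟩
    have h2 := congrArg (algebraMap (integralClosure k[X] L) L) h
    rw [map_natCast, map_natCast] at h2
    exact Nat.cast_injective h2
  have hek : (e : k) ≠ 0 := by
    intro h
    have : (e : k) * e = 1 := by exact_mod_cast he2
    rw [h, mul_zero] at this
    exact zero_ne_one this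
  have hKn' : IsSplittingField k Kn (C (e : k) * it (bas k d) (2 * j + 1)) :=
    isSplittingField_C_mul hek hKn
  have h2 := card_decomp _ rfl Q (C (e : k) * it (bas k d) (2 * j + 1)) Kn
    (C (e : integralClosure k[X] L) *
      (it (bas (integralClosure k[X] L) d) (2 * j + 1) - C (algebraMap k[X] _ X))) ?_ ?_ ?_
  · have h3 : (d ^ (j + 1) + 1) / 2 * Module.finrank k Kn ≤ Module.finrank (RatFunc k) L := by
      calc (d ^ (j + 1) + 1) / 2 * Module.finrank k Kn
          ≤ (d ^ (j + 1) + 1) / 2 * Nat.card (MulAction.stabilizer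
          ((integralClosure k[X] L) ≃ₐ[k[X]] (integralClosure k[X] L)) Q) :=
          Nat.mul_le_mul_left _ h2
        _ ≤ Nat.card ((integralClosure k[X] L) ≃ₐ[k[X]] (integralClosure k[X] L)) := h1
        _ = Nat.card (L ≃ₐ[RatFunc k] L) :=
          Nat.card_congr (galRestrict k[X] (RatFunc k) L (integralClosure k[X] L)).symm.toEquiv
        _ = Module.finrank (RatFunc k) L := IsGalois.card_aut_eq_finrank _ _
    calc d ^ (j + 1) * Module.finrank k Kn
        ≤ (2 * ((d ^ (j + 1) + 1) / 2)) * Module.finrank k Kn :=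
          Nat.mul_le_mul_right _ (by omega)
      _ = 2 * ((d ^ (j + 1) + 1) / 2 * Module.finrank k Kn) := by ring
      _ ≤ 2 * Module.finrank (RatFunc k) L := Nat.mul_le_mul_left _ h3
  · have hl : (it (bas (integralClosure k[X] L) d) (2 * j + 1) -
        C (algebraMap k[X] (integralClosure k[X] L) X)).leadingCoeff =
        (e : integralClosure k[X] L) := by
      rw [leadingCoeff, natDegree_sub_C, coeff_sub, coeff_C, if_neg, sub_zero]
      · exact hlead _
      · rw [it_natDegree]; exact (pow_pos hd _).ne'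
    rw [Monic, leadingCoeff_mul, leadingCoeff_C, hl]
    exact_mod_cast he2
  · rw [Polynomial.map_mul, Polynomial.map_mul, map_C, map_C, Polynomial.map_sub, it_map, it_map,
      bas_map, bas_map, map_C]
    have h3 := congrArg (fun φ => φ X) (hcomm (L := L) (RingHom.ker (evalRingHom (0 : k))) rfl Q)
    simp only [RingHom.comp_apply] at h3
    rw [← h3]
    simp
  · rw [Polynomial.map_mul, map_C, Polynomial.map_sub, it_map, bas_map, map_C,
      ← IsScalarTower.algebraMap_apply]
    exact (Splits.C _).mul hsplit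

end main

/-! ### The definitions -/

/-- The `n`-th iterate `f^n` of `f`. -/
noncomputable def iter {K : Type} [Field K] (f : K[X]) (n : ℕ) : K[X] := f.comp^[n] X

/-- The polynomial `f^n(x) - t` over `K(t)`. -/
noncomputable def genPoly {K : Type} [Field K] (f : K[X]) (n : ℕ) : (RatFunc K)[X] :=
  (iter f n).map RatFunc.C - C RatFunc.X

/-- Every critical point of `f`, in any extension field of `K`, has finite forward orbit. -/
def IsPCF {K : Type} [Field K] (f : K[X]) : Prop :=
  ∀ (E : Type) [Field E] [Algebra K E] (c : E), aeval c (derivative f) = 0 →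
    (Set.range fun n : ℕ => (fun x => aeval x f)^[n] c).Finite

/-- The points `0, f(0), f(f(0)), ...` are pairwise distinct (so `0` is not periodic, and not even
preperiodic). -/
def ZeroOrbitInfinite {K : Type} [Field K] (f : K[X]) : Prop :=
  Function.Injective fun n : ℕ => (fun x : K => f.eval x)^[n] 0

/-- `0` is not a critical value, in any extension field of `K`, of any iterate of `f`. -/
def ZeroNotCriticalValue {K : Type} [Field K] (f : K[X]) : Prop :=
  ∀ (E : Type) [Field E] [Algebra K E] (n : ℕ) (c : E), aeval c (derivative (iter f n)) = 0 →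
    aeval c (iter f n) ≠ 0

/-- `[L_n : K(t)] / [K_n : K] ≥ r`, where `K_n` is a splitting field of `f^n(x)` over `K` and `L_n`
is a splitting field of `f^n(x) - t` over `K(t)`. -/
def RatioGE {K : Type} [Field K] (f : K[X]) (n : ℕ) (r : ℚ) : Prop :=
  ∀ (Kn Ln : Type) [Field Kn] [Field Ln] [Algebra K Kn] [Algebra (RatFunc K) Ln],
    IsSplittingField K Kn (iter f n) → IsSplittingField (RatFunc K) Ln (genPoly f n) →
      r ≤ (Module.finrank (RatFunc K) Ln : ℚ) / (Module.finrank K Kn : ℚ)

/-- `[L_n : K(t)] / [K_n : K]` is unbounded, that is, `G` does not have finite index in `G'`. -/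
def InfiniteIndex {K : Type} [Field K] (f : K[X]) : Prop :=
  ∀ C : ℚ, ∃ n : ℕ, 1 ≤ n ∧ RatioGE f n C

section final

variable (K : Type) [Field K] [CharZero K]

theorem ratio {d : ℕ} (hd : 0 < d) (j : ℕ) (Kn Ln : Type) [Field Kn] [Field Ln] [Algebra K Kn]
    [Algebra (RatFunc K) Ln]
    (hK : IsSplittingField K Kn (iter ((2 - X) ^ d + 1 : K[X]) (2 * j + 1)))
    (hL : IsSplittingField (RatFunc K) Ln (genPoly ((2 - X) ^ d + 1 : K[X]) (2 * j + 1))) :
    d ^ (j + 1) * Module.finrank K Kn ≤ 2 * Module.finrank (RatFunc K) Ln := by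
  have hF0 : CharZero (RatFunc K) :=
    charZero_of_injective_algebraMap (algebraMap K (RatFunc K)).injective
  have hg : genPoly ((2 - X) ^ d + 1 : K[X]) (2 * j + 1) =
      it (bas (RatFunc K) d) (2 * j + 1) - C RatFunc.X := by
    have : iter ((2 - X) ^ d + 1 : K[X]) (2 * j + 1) = it (bas K d) (2 * j + 1) := rfl
    rw [genPoly, this, it_map, bas_map]
  have aux : ∀ {E : Type} [Field E] (φ : RatFunc K →+* E),
      (genPoly ((2 - X) ^ d + 1 : K[X]) (2 * j + 1)).map φ =
        it (bas E d) (2 * j + 1) - C (φ RatFunc.X) := by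
    intro E _ φ
    rw [hg, Polynomial.map_sub, it_map, bas_map, map_C]
  let _ : Algebra K[X] Ln := ((algebraMap (RatFunc K) Ln).comp (algebraMap K[X] (RatFunc K))).toAlgebra
  let _ : Algebra K Ln := ((algebraMap (RatFunc K) Ln).comp (algebraMap K (RatFunc K))).toAlgebra
  have hst1 : IsScalarTower K[X] (RatFunc K) Ln := IsScalarTower.of_algebraMap_eq (fun _ => rfl)
  have hst2 : IsScalarTower K (RatFunc K) Ln := IsScalarTower.of_algebraMap_eq (fun _ => rfl)
  have hst : IsScalarTower K K[X] Ln := IsScalarTower.to₁₂₄ K K[X] (RatFunc K) Ln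
  have hfd : FiniteDimensional (RatFunc K) Ln :=
    IsSplittingField.finiteDimensional Ln (genPoly ((2 - X) ^ d + 1 : K[X]) (2 * j + 1))
  have hsp := IsSplittingField.splits Ln (genPoly ((2 - X) ^ d + 1 : K[X]) (2 * j + 1))
  have hnorm : Normal (RatFunc K) Ln :=
    Normal.of_isSplittingField (genPoly ((2 - X) ^ d + 1 : K[X]) (2 * j + 1))
  have hgal : IsGalois (RatFunc K) Ln := { __ := hnorm }
  have hsplit : (it (bas Ln d) (2 * j + 1) - C (algebraMap K[X] Ln X)).Splits := by
    rw [IsScalarTower.algebraMap_apply K[X] (RatFunc K) Ln, RatFunc.algebraMap_X, ← aux]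
    exact hsp
  have hKn : IsSplittingField K Kn (it (bas K d) (2 * j + 1)) := hK
  exact main_ineq (k := K) (L := Ln) hd j hsplit Kn hKn

end final

section properties

variable (K : Type) [Field K] [CharZero K]

/-- The orbit of `2` under `w ↦ 1 - w^d`. -/
def orb (d : ℕ) : ℕ → ℤ
  | 0 => 2
  | n + 1 => 1 - orb d n ^ d

theorem orb_abs {d : ℕ} (hd : 2 ≤ d) (n : ℕ) : 2 ≤ |orb d n| ∧ |orb d n| < |orb d (n + 1)| := by
  have step : ∀ x : ℤ, 2 ≤ |x| → |x| < |1 - x ^ d| := by
    intro x hx
    have h1 : |x| ^ 2 ≤ |x| ^ d := pow_le_pow_right₀ (by omega) hd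
    have h2 : |x ^ d| - 1 ≤ |1 - x ^ d| := by
      have := abs_sub_abs_le_abs_sub (x ^ d) 1
      rw [abs_one, abs_sub_comm] at this
      exact this
    rw [abs_pow] at h2
    nlinarith
  induction n with
  | zero => exact ⟨by simp [orb], step _ (by simp [orb])⟩
  | succ n ih => exact ⟨by omega, step _ (by omega)⟩

theorem orb_injective {d : ℕ} (hd : 2 ≤ d) : Function.Injective (orb d) := by
  have h : StrictMono fun n => |orb d n| := strictMono_nat_of_lt_succ (fun n => (orb_abs hd n).2)
  intro a b hab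
  exact h.injective (congrArg abs hab)

omit [CharZero K] in
theorem orb_eval (d n : ℕ) :
    (fun x : K => ((2 - X) ^ d + 1 : K[X]).eval x)^[n] 0 = 2 - (orb d n : K) := by
  induction n with
  | zero => simp [orb]
  | succ n ih =>
    rw [Function.iterate_succ_apply', ih, orb]
    simp
    ring

variable {K}

omit [CharZero K] in
theorem aeval_bas {E : Type*} [Field E] [Algebra K E] (d : ℕ) (x : E) :
    aeval x ((2 - X) ^ d + 1 : K[X]) = (2 - x) ^ d + 1 := by
  rw [map_add, map_pow, map_sub, aeval_X, map_one, map_ofNat]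

theorem crit {E : Type*} [Field E] [Algebra K E] {d : ℕ} (hd : 2 ≤ d) {c : E}
    (hc : aeval c (derivative ((2 - X) ^ d + 1 : K[X])) = 0) : c = 2 := by
  have h0 : CharZero E := charZero_of_injective_algebraMap (algebraMap K E).injective
  have h1 : derivative ((2 - X) ^ d + 1 : K[X]) = C (d : K) * (2 - X) ^ (d - 1) * (0 - 1) := by
    rw [derivative_add, derivative_one, add_zero, derivative_pow, derivative_sub, derivative_X,
      derivative_ofNat]
  rw [h1] at hc
  simp only [map_mul, map_sub, map_zero, map_one, map_pow, aeval_X, map_ofNat,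
    map_natCast] at hc
  have hd0 : (d : E) ≠ 0 := by exact_mod_cast (by omega : d ≠ 0)
  have h2 : (2 - c) ^ (d - 1) = 0 := by
    apply mul_left_cancel₀ hd0
    linear_combination (-1) * hc
  have h3 : 2 - c = 0 := pow_eq_zero_iff (by omega) |>.mp h2
  exact (sub_eq_zero.mp h3).symm

theorem crit_orbit {E : Type*} [Field E] [Algebra K E] {d : ℕ} (hd : 2 ≤ d) (n : ℕ) :
    (fun x : E => aeval x ((2 - X) ^ d + 1 : K[X]))^[n] 2 = 1 ∨
      (fun x : E => aeval x ((2 - X) ^ d + 1 : K[X]))^[n] 2 = 2 := by
  induction n with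
  | zero => right; rfl
  | succ n ih =>
    rw [Function.iterate_succ_apply']
    rcases ih with h | h
    · right
      rw [h, aeval_bas]
      norm_num
    · left
      rw [h, aeval_bas, sub_self, zero_pow (by omega), zero_add]

theorem crit_values {E : Type*} [Field E] [Algebra K E] {d : ℕ} (hd : 2 ≤ d) (n : ℕ) : ∀ c : E,
    aeval c (derivative (((2 - X) ^ d + 1 : K[X]).comp^[n] X)) = 0 →
    aeval c (((2 - X) ^ d + 1 : K[X]).comp^[n] X) = 1 ∨
      aeval c (((2 - X) ^ d + 1 : K[X]).comp^[n] X) = 2 := by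
  induction n with
  | zero => intro c hc; simp at hc
  | succ n ih =>
    intro c hc
    rw [Function.iterate_succ_apply'] at hc ⊢
    rw [derivative_comp, map_mul, aeval_comp, mul_eq_zero] at hc
    rw [aeval_comp]
    rcases hc with hc | hc
    · rcases ih c hc with h | h
      · right
        rw [h, aeval_bas]
        norm_num
      · left
        rw [h, aeval_bas, sub_self, zero_pow (by omega), zero_add]
    · left
      rw [crit hd hc, aeval_bas, sub_self, zero_pow (by omega), zero_add]

end properties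

/-- Over every number field `K` and in every degree `d ≥ 2` the polynomial `f = (2 - x)^d + 1` is
postcritically finite, the forward orbit of `0` is infinite, `0` is not a critical value of any
iterate of `f`, and `[L_n : K(t)] / [K_n : K] ≥ d^((n+1)/2) / 2` for all odd `n`. -/
theorem result (K : Type) [Field K] [NumberField K] (d : ℕ) (hd : 2 ≤ d) :
    ∃ f : K[X], f = (2 - X) ^ d + 1 ∧ f.natDegree = d ∧ IsPCF f ∧ ZeroOrbitInfinite f ∧
      ZeroNotCriticalValue f ∧ InfiniteIndex f ∧
      ∀ j : ℕ, RatioGE f (2 * j + 1) ((d : ℚ) ^ (j + 1) / 2) := by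
  have hratio : ∀ j : ℕ, RatioGE ((2 - X) ^ d + 1 : K[X]) (2 * j + 1) ((d : ℚ) ^ (j + 1) / 2) := by
    intro j Kn Ln _ _ _ _ hK hL
    have h1 := ratio K (by omega : 0 < d) j Kn Ln hK hL
    have hfd : FiniteDimensional K Kn := IsSplittingField.finiteDimensional Kn
      (iter ((2 - X) ^ d + 1 : K[X]) (2 * j + 1))
    have h2 : 0 < Module.finrank K Kn := Module.finrank_pos
    have h3 : (0 : ℚ) < Module.finrank K Kn := by exact_mod_cast h2
    rw [le_div_iff₀ h3, div_mul_eq_mul_div, div_le_iff₀ (by norm_num)]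
    have h4 : ((d ^ (j + 1) * Module.finrank K Kn : ℕ) : ℚ) ≤
        ((2 * Module.finrank (RatFunc K) Ln : ℕ) : ℚ) := by exact_mod_cast h1
    push_cast at h4
    linarith
  have hinj : Function.Injective fun n : ℕ =>
      (fun x : K => ((2 - X) ^ d + 1 : K[X]).eval x)^[n] 0 := by
    intro a b h
    simp only [orb_eval, sub_right_inj] at h
    exact orb_injective hd (Int.cast_injective h)
  refine ⟨(2 - X) ^ d + 1, rfl, bas_natDegree d, ?_, hinj, ?_, ?_, hratio⟩
  · intro E _ _ c hc
    rw [crit hd hc]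
    refine (Set.toFinite ({1, 2} : Set E)).subset ?_
    rintro _ ⟨n, rfl⟩
    exact crit_orbit hd n
  · intro E _ _ n c hc h
    have h0 : CharZero E := charZero_of_injective_algebraMap (algebraMap K E).injective
    rcases crit_values hd n c hc with h1 | h1
    · rw [iter] at h; rw [h] at h1; exact zero_ne_one h1
    · rw [iter] at h; rw [h] at h1; exact two_ne_zero h1.symm
  · intro C
    obtain ⟨m, hm⟩ := exists_nat_ge C
    refine ⟨2 * m + 1, by omega, ?_⟩
    intro Kn Ln _ _ _ _ hK hL
    refine le_trans ?_ (hratio m Kn Ln hK hL)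
    have h1 : (m : ℚ) ≤ 2 ^ m := by exact_mod_cast (Nat.lt_two_pow_self (n := m)).le
    have h2 : (2 : ℚ) ^ (m + 1) ≤ (d : ℚ) ^ (m + 1) :=
      pow_le_pow_left₀ (by norm_num) (by exact_mod_cast hd) _
    rw [pow_succ] at h2
    linarith

end Pool.Agent.Results.MP_9fb0d9_nt.EveryDegree
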